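import Pool.Agent.P.MP_597c46_an.CharDefs

/-!
A nonempty convex set is the domain of a subdifferential exactly when it is a countable union of
closed sets.  The function is the sum of the distances to an exhaustion by compact convex sets.
-/

namespace Pool.Agent.P.MP_597c46_an.Char

open Set Filter Topology Metric

variable {n : ℕ}

/-! ### Necessity -/

theorem fsigma_of_sigmaCompact {C : Set (E n)} (h : IsSigmaCompact C) : IsFsigma C := by
  obtain ⟨K, hK, hU⟩ := h
  exact ⟨K, fun m => (hK m).isClosed, hU⟩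

theorem fsigma_of_closed {A : E n → Set (E n)} (hA : IsClosed (graph A)) :
    IsFsigma (dom A) ∧ IsFsigma (ran A) := by
  have hG : IsSigmaCompact (graph A) :=
    IsSigmaCompact.of_isClosed_subset isSigmaCompact_univ hA (subset_univ _)
  constructor
  · apply fsigma_of_sigmaCompact
    convert hG.image continuous_fst using 1
    ext x
    simp [dom, graph, Set.Nonempty]
  · apply fsigma_of_sigmaCompact
    convert hG.image continuous_snd using 1
    ext x
    simp [ran, graph]

theorem closed_of_max {A : E n → Set (E n)} (hA : IsMaxMonotoneOp A) : IsClosed (graph A) := by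
  by_contra hcl
  apply hA.2
  refine ⟨fun x => {u | (x, u) ∈ closure (graph A)}, ?_, ?_⟩
  · intro x y u v hu hv
    have hcont : Continuous fun z : (E n × E n) × (E n × E n) =>
        inner ℝ (z.1.2 - z.2.2) (z.1.1 - z.2.1) := by fun_prop
    have hsub : graph A ×ˢ graph A ⊆
        {z : (E n × E n) × (E n × E n) | 0 ≤ inner ℝ (z.1.2 - z.2.2) (z.1.1 - z.2.1)} :=
      fun z hz => hA.1 _ _ _ _ hz.1 hz.2
    have hmem : ((x, u), (y, v)) ∈ closure (graph A ×ˢ graph A) := by
      rw [closure_prod_eq]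
      exact ⟨hu, hv⟩
    exact closure_minimal hsub (isClosed_le continuous_const hcont) hmem
  · exact ⟨subset_closure, fun h => hcl (closure_subset_iff_isClosed.1 h)⟩

theorem le_of_forall {a b : WithTop ℝ} (h : ∀ s : ℝ, b ≤ s → a ≤ s) : a ≤ b := by
  cases b with
  | top => exact le_top
  | coe s => exact h s le_rfl

theorem mem_subdiff {f : E n → WithTop ℝ} (hp : ∃ x, f x ≠ ⊤) {x u : E n} :
    u ∈ subdiff f x ↔ ∃ r : ℝ, f x = r ∧ ∀ y (s : ℝ), f y ≤ s → r + inner ℝ u (y - x) ≤ s := by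
  constructor
  · intro h
    obtain ⟨y, hy⟩ := hp
    cases e : f x with
    | top =>
      have := h y
      rw [e, top_add, top_le_iff] at this
      exact absurd this hy
    | coe r =>
      refine ⟨r, rfl, fun y s hs => ?_⟩
      have := (h y).trans hs
      rwa [e, ← WithTop.coe_add, WithTop.coe_le_coe] at this
  · rintro ⟨r, e, h⟩ y
    refine le_of_forall fun s hs => ?_
    rw [e, ← WithTop.coe_add, WithTop.coe_le_coe]
    exact h y s hs

theorem closed_epi {f : E n → WithTop ℝ} (hf : LowerSemicontinuous f) :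
    IsClosed {p : E n × ℝ | f p.1 ≤ (p.2 : WithTop ℝ)} := by
  rw [← isOpen_compl_iff, isOpen_iff_mem_nhds]
  rintro ⟨x, r⟩ hp
  simp only [mem_compl_iff, mem_ofPred_eq, not_le] at hp
  obtain ⟨c, c1, c2⟩ : ∃ c : ℝ, r < c ∧ (c : WithTop ℝ) < f x := by
    cases h : f x with
    | top => exact ⟨r + 1, by linarith, WithTop.coe_lt_top _⟩
    | coe s =>
      rw [h, WithTop.coe_lt_coe] at hp
      exact ⟨(r + s) / 2, by linarith, WithTop.coe_lt_coe.2 (by linarith)⟩
  have h1 : ∀ᶠ p : E n × ℝ in 𝓝 (x, r), (c : WithTop ℝ) < f p.1 :=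
    (continuous_fst.tendsto (x, r)).eventually (hf x c c2)
  have h2 : ∀ᶠ p : E n × ℝ in 𝓝 (x, r), p.2 < c :=
    continuous_snd.continuousAt.eventually_lt continuousAt_const c1
  filter_upwards [h1, h2] with p p1 p2
  simp only [mem_compl_iff, mem_ofPred_eq, not_le]
  exact (WithTop.coe_lt_coe.2 p2).trans p1

theorem closed_subdiff {f : E n → WithTop ℝ} (hf : LowerSemicontinuous f) :
    IsClosed (graph (subdiff f)) := by
  have e : graph (subdiff f) = ⋂ q ∈ {q : E n × ℝ | f q.1 ≤ (q.2 : WithTop ℝ)},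
      (fun p : E n × E n => (p.1, q.2 - inner ℝ p.2 (q.1 - p.1))) ⁻¹'
        {p : E n × ℝ | f p.1 ≤ (p.2 : WithTop ℝ)} := by
    have k : ∀ (a : WithTop ℝ) (t s : ℝ), a + (t : WithTop ℝ) ≤ s ↔ a ≤ ((s - t : ℝ) : WithTop ℝ) := by
      intro a t s
      cases a with
      | top => simp
      | coe r =>
        rw [← WithTop.coe_add, WithTop.coe_le_coe, WithTop.coe_le_coe, le_sub_iff_add_le]
    ext ⟨x, u⟩
    simp only [graph, subdiff, mem_ofPred_eq, mem_iInter, mem_preimage, ← k]
    exact ⟨fun h q hq => (h q.1).trans hq, fun h y => le_of_forall fun s hs => h (y, s) hs⟩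
  rw [e]
  exact isClosed_biInter fun q _ => (closed_epi hf).preimage (by fun_prop)

/-! ### Suprema of families of real functions -/

open Classical in
/-- The pointwise supremum of a family of real functions. -/
noncomputable def sp {ι : Type} (g : ι → E n → ℝ) (x : E n) : WithTop ℝ :=
  if BddAbove (range fun i => g i x) then ((⨆ i, g i x : ℝ) : WithTop ℝ) else ⊤

theorem sp_le {ι : Type} [Nonempty ι] {g : ι → E n → ℝ} {x : E n} {r : ℝ} :
    sp g x ≤ r ↔ ∀ i, g i x ≤ r := by
  unfold sp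
  split_ifs with h
  · rw [WithTop.coe_le_coe, ciSup_le_iff h]
  · simp only [top_le_iff, WithTop.coe_ne_top, false_iff]
    exact fun h' => h ⟨r, by rintro _ ⟨i, rfl⟩; exact h' i⟩

theorem sp_eq {ι : Type} [Nonempty ι] {g : ι → E n → ℝ} {x : E n} {i : ι}
    (h : ∀ j, g j x ≤ g i x) : sp g x = (g i x : ℝ) :=
  le_antisymm (sp_le.2 h) (le_of_forall fun _ hs => WithTop.coe_le_coe.2 (sp_le.1 hs i))

theorem sp_lsc {ι : Type} [Nonempty ι] {g : ι → E n → ℝ} (hc : ∀ i, Continuous (g i)) :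
    LowerSemicontinuous (sp g) := by
  intro x c hc'
  cases c with
  | top => exact absurd hc' not_top_lt
  | coe r =>
    have := (not_le.2 hc')
    rw [sp_le] at this
    push Not at this
    obtain ⟨i, hi⟩ := this
    filter_upwards [continuousAt_const.eventually_lt (hc i).continuousAt hi] with y hy
    exact not_le.1 fun h => absurd (sp_le.1 h i) (not_le.2 hy)

theorem sp_convex {ι : Type} [Nonempty ι] {g : ι → E n → ℝ} (hc : ∀ i, ConvexOn ℝ univ (g i)) :
    Convex ℝ {p : E n × ℝ | sp g p.1 ≤ (p.2 : WithTop ℝ)} := by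
  intro p hp q hq a b ha hb hab
  simp only [mem_ofPred_eq, sp_le] at hp hq ⊢
  intro i
  refine ((hc i).2 (mem_univ p.1) (mem_univ q.1) ha hb hab).trans ?_
  exact add_le_add (mul_le_mul_of_nonneg_left (hp i) ha) (mul_le_mul_of_nonneg_left (hq i) hb)

/-! ### Maximal monotonicity -/

theorem mono_subdiff {f : E n → WithTop ℝ} (hp : ∃ x, f x ≠ ⊤) : IsMonotoneOp (subdiff f) := by
  intro x y u v hu hv
  obtain ⟨r, e, h⟩ := (mem_subdiff hp).1 hu
  obtain ⟨s, e', h'⟩ := (mem_subdiff hp).1 hv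
  have a := h y s e'.le
  have b := h' x r e.le
  rw [← neg_sub x y, inner_neg_right] at a
  rw [inner_sub_left]
  linarith

theorem max_iff {A : E n → Set (E n)} : IsMaxMonotoneOp A ↔ IsMonotoneOp A ∧
    ∀ x u, (∀ y v, v ∈ A y → 0 ≤ inner ℝ (u - v) (x - y)) → u ∈ A x := by
  refine and_congr_right fun hm => ⟨fun h x u hu => ?_, fun h => ?_⟩
  · by_contra c
    refine h ⟨fun y => {v | v ∈ A y ∨ (y = x ∧ v = u)}, ?_, fun p hp => Or.inl hp, fun h' => ?_⟩
    · rintro y y' v v' (hv | ⟨rfl, rfl⟩) (hv' | ⟨rfl, rfl⟩)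
      · exact hm _ _ _ _ hv hv'
      · rw [← neg_sub, ← neg_sub _ y, inner_neg_neg]
        exact hu _ _ hv
      · exact hu _ _ hv'
      · simp
    · exact c (h' (show (x, u) ∈ graph _ from Or.inr ⟨rfl, rfl⟩))
  · rintro ⟨B, hB, h1, h2⟩
    exact h2 fun p hp => h p.1 p.2 fun y v hv => hB _ _ _ _ hp (h1 (show (y, v) ∈ graph A from hv))

theorem le_of_small {a b : ℝ} (h : ∀ t : ℝ, 0 < t → t ≤ 1 → 0 ≤ a + t * b) : 0 ≤ a := by
  have c : Tendsto (fun t : ℝ => a + t * b) (𝓝[>] 0) (𝓝 (a + 0 * b)) :=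
    tendsto_nhdsWithin_of_tendsto_nhds (Continuous.tendsto (by fun_prop) 0)
  rw [zero_mul, add_zero] at c
  refine ge_of_tendsto c ?_
  filter_upwards [Ioc_mem_nhdsGT (show (0 : ℝ) < 1 by norm_num)] with t ht using h t ht.1 ht.2

theorem max_subdiff {f : E n → WithTop ℝ} (hf : IsProperLscConvex f)
    (h0 : ∀ y (s : ℝ), f y ≤ s → 0 ≤ s) : IsMaxMonotoneOp (subdiff f) := by
  obtain ⟨hp, hl, hc⟩ := hf
  refine max_iff.2 ⟨mono_subdiff hp, fun x u hu => ?_⟩
  let φ : E n × ℝ → ℝ := fun p => p.2 - inner ℝ u (p.1 - x) + ‖p.1 - x‖ ^ 2 / 2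
  have cφ : Continuous φ := by fun_prop
  obtain ⟨y0, hy0⟩ := hp
  obtain ⟨r0, e0⟩ := WithTop.ne_top_iff_exists.1 hy0
  let G := {p : E n × ℝ | f p.1 ≤ (p.2 : WithTop ℝ)} ∩ {p | φ p ≤ φ (y0, r0)}
  have cG : IsCompact G := by
    refine isCompact_of_isClosed_isBounded
      ((closed_epi hl).inter (isClosed_le cφ continuous_const)) ?_
    obtain ⟨c, hc'⟩ : ∃ c, c = |φ (y0, r0)| := ⟨_, rfl⟩
    have c0 : 0 ≤ c := hc' ▸ abs_nonneg _
    refine ((isBounded_closedBall (x := x) (r := 2 * ‖u‖ + 2 * c + 1)).prod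
      (isBounded_Icc 0 (c + ‖u‖ * (2 * ‖u‖ + 2 * c + 1)))).subset ?_
    rintro ⟨y, s⟩ ⟨p1, p2⟩
    have a0 := h0 y s p1
    have a1 : s - inner ℝ u (y - x) + ‖y - x‖ ^ 2 / 2 ≤ c := hc' ▸ le_trans p2 (le_abs_self _)
    have a2 := real_inner_le_norm u (y - x)
    have a3 := norm_nonneg u
    have a4 := norm_nonneg (y - x)
    have a5 : ‖y - x‖ ≤ 2 * ‖u‖ + 2 * c + 1 := by
      by_contra k
      push Not at k
      nlinarith
    refine ⟨by rwa [mem_closedBall, dist_eq_norm], a0, ?_⟩
    show s ≤ _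
    nlinarith
  obtain ⟨⟨z, r⟩, hz, hmin⟩ := cG.exists_isMinOn ⟨(y0, r0), e0.ge, le_refl (φ (y0, r0))⟩ cφ.continuousOn
  have hmin' : ∀ p : E n × ℝ, f p.1 ≤ (p.2 : WithTop ℝ) → φ (z, r) ≤ φ p := fun p hp => by
    rcases le_total (φ p) (φ (y0, r0)) with c | c
    · exact hmin ⟨hp, c⟩
    · exact le_trans hz.2 c
  have hw : u - (z - x) ∈ subdiff f z := by
    intro y
    refine le_of_forall fun s hs => ?_
    have k : 0 ≤ s - r - inner ℝ (u - (z - x)) (y - z) := by
      refine le_of_small (b := ‖y - z‖ ^ 2 / 2) fun t t0 t1 => ?_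
      have m := hmin' _ (hc hz.1 (show (y, s) ∈ {p : E n × ℝ | f p.1 ≤ (p.2 : WithTop ℝ)} from hs)
        (sub_nonneg.2 t1) t0.le (sub_add_cancel 1 t))
      simp only [φ, Prod.fst_add, Prod.snd_add, Prod.smul_fst, Prod.smul_snd, smul_eq_mul] at m
      rw [show (1 - t) • z + t • y - x = (z - x) + t • (y - z) by module, inner_add_right,
        norm_add_sq_real, inner_smul_right, inner_smul_right, norm_smul, Real.norm_eq_abs,
        abs_of_pos t0] at m
      rw [inner_sub_left]
      refine le_of_mul_le_mul_left ?_ t0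
      nlinarith
    refine le_trans (add_le_add_left hz.1 _) ?_
    rw [← WithTop.coe_add, WithTop.coe_le_coe]
    show r + _ ≤ s
    linarith
  have a := hu _ _ hw
  rw [sub_sub_cancel, ← neg_sub z x, inner_neg_right, real_inner_self_eq_norm_sq] at a
  have b : z - x = 0 := norm_eq_zero.1 (by nlinarith [norm_nonneg (z - x)])
  rw [b, sub_zero, sub_eq_zero.1 b] at hw
  exact hw

/-- The inverse of a set-valued map. -/
def inv (A : E n → Set (E n)) (u : E n) : Set (E n) := {x | u ∈ A x}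

theorem max_inv {A : E n → Set (E n)} (h : IsMaxMonotoneOp A) : IsMaxMonotoneOp (inv A) := by
  rw [max_iff] at h ⊢
  refine ⟨fun x y u v hu hv => ?_, fun x u hu => h.2 u x fun y v hv => ?_⟩
  · rw [real_inner_comm]
    exact h.1 _ _ _ _ hu hv
  · rw [real_inner_comm]
    exact hu v y hv

theorem ran_inv (A : E n → Set (E n)) : ran (inv A) = dom A := by
  ext x
  simp [ran, dom, inv, Set.Nonempty]

/-- The Fenchel conjugate inverts a maximally monotone subdifferential. -/
theorem exists_conj {f : E n → WithTop ℝ} (hp : ∃ x, f x ≠ ⊤) (hm : IsMaxMonotoneOp (subdiff f))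
    (hne : (dom (subdiff f)).Nonempty) :
    ∃ g, IsProperLscConvex g ∧ subdiff g = inv (subdiff f) := by
  let ι := {p : E n × ℝ // f p.1 ≤ (p.2 : WithTop ℝ)}
  have : Nonempty ι := by
    obtain ⟨y0, hy0⟩ := hp
    obtain ⟨r0, e0⟩ := WithTop.ne_top_iff_exists.1 hy0
    exact ⟨⟨(y0, r0), e0.ge⟩⟩
  let g : ι → E n → ℝ := fun p u => inner ℝ p.1.1 u - p.1.2
  have val : ∀ x u (r : ℝ), (e : f x = r) → (∀ y (s : ℝ), f y ≤ s → r + inner ℝ u (y - x) ≤ s) →
      sp g u = ((inner ℝ x u - r : ℝ) : WithTop ℝ) := by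
    intro x u r e h
    refine sp_eq (g := g) (i := ⟨(x, r), e.le⟩) fun j => ?_
    have := h j.1.1 j.1.2 j.2
    rw [inner_sub_right, real_inner_comm, real_inner_comm x] at this
    show inner ℝ j.1.1 u - j.1.2 ≤ inner ℝ x u - r
    linarith
  have pg : ∃ u, sp g u ≠ ⊤ := by
    obtain ⟨x, u, hu⟩ := hne
    obtain ⟨r, e, h⟩ := (mem_subdiff hp).1 hu
    exact ⟨u, by rw [val x u r e h]; exact WithTop.coe_ne_top⟩
  have sub : ∀ u, inv (subdiff f) u ⊆ subdiff (sp g) u := by
    intro u x hx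
    obtain ⟨r, e, h⟩ := (mem_subdiff hp).1 hx
    refine (mem_subdiff pg).2 ⟨_, val x u r e h, fun v s hs => ?_⟩
    have : inner ℝ x v - r ≤ s := sp_le.1 hs ⟨(x, r), e.le⟩
    rw [inner_sub_right]
    linarith
  refine ⟨sp g, ⟨pg, sp_lsc fun p => by fun_prop, sp_convex fun p => ?_⟩, ?_⟩
  · refine ⟨convex_univ, fun a _ b _ s t _ _ hst => le_of_eq ?_⟩
    simp only [g, inner_add_right, inner_smul_right, smul_eq_mul]
    linear_combination p.1.2 * hst
  · funext u
    refine subset_antisymm (fun x hx => ?_) (sub u)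
    exact (max_iff.1 (max_inv hm)).2 u x fun v y hy => mono_subdiff pg _ _ _ _ hx (sub v hy)

/-! ### The construction -/

theorem isCompact_hull {K : Set (E n)} (hK : IsCompact K) : IsCompact (convexHull ℝ K) := by
  let J : ℕ → Set (E n) := fun k => (fun p : (Fin k → ℝ) × (Fin k → E n) => ∑ i, p.1 i • p.2 i) ''
    (stdSimplex ℝ (Fin k) ×ˢ Set.pi univ fun _ => K)
  have cJ : ∀ k, IsCompact (J k) := fun k =>
    ((isCompact_stdSimplex ℝ (Fin k)).prod (isCompact_univ_pi fun _ => hK)).image (by fun_prop)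
  have e : convexHull ℝ K = ⋃ k ∈ Iic (n + 1), J k := by
    refine subset_antisymm (fun x hx => ?_) ?_
    · obtain ⟨ι, _, z, w, h1, h2, h3, h4, h5⟩ := eq_pos_convex_span_of_mem_convexHull hx
      have c : Fintype.card ι ≤ n + 1 := by
        have a := h2.card_le_finrank_succ
        have b := Submodule.finrank_le (vectorSpan ℝ (range z))
        rw [finrank_euclideanSpace_fin] at b
        omega
      let q := (Fintype.equivFin ι).symm
      refine mem_biUnion (show Fintype.card ι ∈ Iic (n + 1) from c)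
        ⟨(fun i => w (q i), fun i => z (q i)), ⟨⟨fun i => (h3 _).le, ?_⟩,
          fun i _ => h1 (mem_range_self _)⟩, ?_⟩
      · rw [← h4]
        exact q.sum_comp w
      · rw [← h5]
        exact q.sum_comp fun i => w i • z i
    · refine iUnion₂_subset fun k _ => ?_
      rintro _ ⟨p, ⟨p1, p2⟩, rfl⟩
      exact (convex_convexHull ℝ K).sum_mem (fun i _ => p1.1 i) p1.2
        fun i _ => subset_convexHull ℝ K (p2 i (mem_univ i))
  rw [e]
  exact (finite_Iic _).isCompact_biUnion fun k _ => cJ k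

theorem exists_exhaustion {C : Set (E n)} (hne : C.Nonempty) (hC : Convex ℝ C) (hF : IsFsigma C) :
    ∃ K : ℕ → Set (E n), (∀ m, IsCompact (K m)) ∧ (∀ m, Convex ℝ (K m)) ∧ (∀ m, (K m).Nonempty) ∧
      (∀ m, K m ⊆ C) ∧ ∀ x ∈ C, ∃ m₀, ∀ m, m₀ ≤ m → x ∈ K m := by
  obtain ⟨F, hF, hU⟩ := hF
  obtain ⟨x0, hx0⟩ := hne
  refine ⟨fun m => convexHull ℝ ({x0} ∪ ⋃ j ∈ Iic m, F j ∩ closedBall 0 m), fun m => ?_,
    fun m => convex_convexHull ℝ _, fun m => ⟨x0, subset_convexHull ℝ _ (Or.inl rfl)⟩,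
    fun m => convexHull_min ?_ hC, fun x hx => ?_⟩
  · exact isCompact_hull (isCompact_singleton.union ((finite_Iic _).isCompact_biUnion
      fun j _ => (isCompact_closedBall 0 _).inter_left (hF j)))
  · refine union_subset (singleton_subset_iff.2 hx0) (iUnion₂_subset fun j _ => ?_)
    exact inter_subset_left.trans (hU ▸ subset_iUnion F j)
  · rw [← hU] at hx
    obtain ⟨j, hj⟩ := mem_iUnion.1 hx
    obtain ⟨N, hN⟩ := exists_nat_ge ‖x‖
    refine ⟨max j N, fun m hm => subset_convexHull ℝ _ (Or.inr ?_)⟩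
    refine mem_biUnion (show j ∈ Iic m from le_of_max_le_left hm) ⟨hj, ?_⟩
    rw [mem_closedBall_zero_iff]
    exact hN.trans (by exact_mod_cast le_of_max_le_right hm)

/-- A continuous convex function has a subgradient everywhere. -/
theorem exists_subgrad {g : E n → ℝ} (hc : ConvexOn ℝ univ g) (hg : Continuous g) (x : E n) :
    ∃ u : E n, ∀ y, g x + inner ℝ u (y - x) ≤ g y := by
  have op : IsOpen {p : E n × ℝ | g p.1 < p.2} := isOpen_lt (by fun_prop) (by fun_prop)
  have cv : Convex ℝ {p : E n × ℝ | g p.1 < p.2} := by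
    simpa using hc.convex_strict_epigraph
  obtain ⟨L, hL⟩ := geometric_hahn_banach_open_point cv op
    (show (x, g x) ∉ {p : E n × ℝ | g p.1 < p.2} from lt_irrefl (g x))
  have sp : ∀ (y : E n) (s : ℝ), L (y, s) = L (y, 0) + s * L (0, 1) := fun y s => by
    rw [← smul_eq_mul, ← map_smul, ← map_add]
    simp
  have neg : L (0, 1) < 0 := by
    have := hL (x, g x + 1) (lt_add_one (g x))
    rw [sp, sp x (g x)] at this
    linarith
  let M : E n →L[ℝ] ℝ := (-(L (0, 1))⁻¹) • L.comp (ContinuousLinearMap.inl ℝ (E n) ℝ)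
  refine ⟨(InnerProductSpace.toDual ℝ (E n)).symm M, fun y => ?_⟩
  rw [InnerProductSpace.toDual_symm_apply, map_sub]
  refine le_of_forall_pos_le_add fun ε e0 => ?_
  have := hL (y, g y + ε) (by simpa using e0)
  rw [sp, sp x (g x)] at this
  have m : ∀ z, M z * L (0, 1) = -L (z, 0) := fun z => by
    have := neg.ne
    simp only [M, smul_apply, ContinuousLinearMap.comp_apply,
      ContinuousLinearMap.inl_apply, smul_eq_mul]
    field_simp
  refine le_of_mul_le_mul_right ?_ (neg_pos.2 neg)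
  nlinarith [m x, m y]

theorem exists_fun {C : Set (E n)} (hne : C.Nonempty) (hC : Convex ℝ C) (hF : IsFsigma C) :
    ∃ f, IsProperLscConvex f ∧ (∀ y (s : ℝ), f y ≤ s → 0 ≤ s) ∧ dom (subdiff f) = C := by
  obtain ⟨K, cK, vK, nK, sK, eK⟩ := exists_exhaustion hne hC hF
  let S : ℕ → E n → ℝ := fun N x => ∑ m ∈ Finset.range N, infDist x (K m)
  have cS : ∀ N, Continuous (S N) := fun N =>
    continuous_finsetSum _ fun m _ => continuous_infDist_pt _
  have vd : ∀ m, ConvexOn ℝ univ fun x => infDist x (K m) := by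
    intro m
    refine ⟨convex_univ, fun a _ b _ s t s0 t0 hst => ?_⟩
    obtain ⟨p, hp, e1⟩ := (cK m).exists_infDist_eq_dist (nK m) a
    obtain ⟨q, hq, e2⟩ := (cK m).exists_infDist_eq_dist (nK m) b
    refine (infDist_le_dist_of_mem (vK m hp hq s0 t0 hst)).trans ?_
    simp only [e1, e2, dist_eq_norm, smul_eq_mul]
    rw [show s • a + t • b - (s • p + t • q) = s • (a - p) + t • (b - q) by module]
    refine (norm_add_le _ _).trans (le_of_eq ?_)
    rw [norm_smul, norm_smul, Real.norm_eq_abs, Real.norm_eq_abs, abs_of_nonneg s0,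
      abs_of_nonneg t0]
  have vS : ∀ N, ConvexOn ℝ univ (S N) := by
    intro N
    refine ⟨convex_univ, fun a _ b _ s t s0 t0 hst => ?_⟩
    simp only [S, smul_eq_mul, Finset.mul_sum, ← Finset.sum_add_distrib]
    exact Finset.sum_le_sum fun m _ => (vd m).2 (mem_univ a) (mem_univ b) s0 t0 hst
  have mono : ∀ N j x, S N x ≤ S (N + j) x ∧ S j x ≤ S (N + j) x := fun N j x =>
    ⟨Finset.sum_le_sum_of_subset_of_nonneg (Finset.range_mono (by omega))
      fun _ _ _ => infDist_nonneg, Finset.sum_le_sum_of_subset_of_nonneg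
      (Finset.range_mono (by omega)) fun _ _ _ => infDist_nonneg⟩
  have val : ∀ x ∈ C, ∃ N, sp S x = (S N x : ℝ) := by
    intro x hx
    obtain ⟨N, hN⟩ := eK x hx
    refine ⟨N, sp_eq fun j => (mono N j x).2.trans (le_of_eq ?_)⟩
    simp only [S]
    rw [Finset.sum_range_add, Finset.sum_eq_zero (s := Finset.range j), add_zero]
    exact fun m _ => infDist_zero_of_mem (hN _ (by omega))
  have pf : ∃ x, sp S x ≠ ⊤ := by
    obtain ⟨x, hx⟩ := hne
    obtain ⟨N, hN⟩ := val x hx
    exact ⟨x, by rw [hN]; exact WithTop.coe_ne_top⟩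
  refine ⟨sp S, ⟨pf, sp_lsc cS, sp_convex vS⟩, fun y s hs => by simpa [S] using sp_le.1 hs 0, ?_⟩
  refine subset_antisymm (fun y hy => ?_) fun x hx => ?_
  swap
  · obtain ⟨N, hN⟩ := val x hx
    obtain ⟨u, hu⟩ := exists_subgrad (vS N) (cS N) x
    exact ⟨u, (mem_subdiff pf).2 ⟨_, hN, fun y s hs => (hu y).trans (sp_le.1 hs N)⟩⟩
  by_contra hyC
  obtain ⟨u, hu⟩ := hy
  obtain ⟨r, er, hr⟩ := (mem_subdiff pf).1 hu
  choose p hp ep using fun m => (cK m).exists_infDist_eq_dist (nK m) y
  simp only [dist_eq_norm] at ep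
  have d0 : ∀ m, 0 < ‖y - p m‖ := fun m =>
    norm_pos_iff.2 (sub_ne_zero.2 fun h => hyC (h ▸ sK m (hp m)))
  let ν : ℕ → E n := fun m => ‖y - p m‖⁻¹ • (y - p m)
  have n1 : ∀ m, ‖ν m‖ = 1 := fun m => by
    simp only [ν, norm_smul, norm_inv, norm_norm]
    exact inv_mul_cancel₀ (d0 m).ne'
  have lim : ∀ z ∈ C, Tendsto (fun m => inner ℝ (ν m) (y - z)) atTop (𝓝 0) := by
    intro z hz
    obtain ⟨m₀, hm⟩ := eK z hz
    have a0 : ∀ m, m₀ ≤ m → 0 ≤ inner ℝ (ν m) (y - z) := by
      intro m h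
      have k : 0 ≤ -(2 * inner ℝ (y - p m) (z - p m)) := by
        refine le_of_small (b := ‖z - p m‖ ^ 2) fun t t0 t1 => ?_
        have b := infDist_le_dist_of_mem (x := y)
          (vK m (hp m) (hm m h) (sub_nonneg.2 t1) t0.le (sub_add_cancel 1 t))
        rw [ep, dist_eq_norm, show y - ((1 - t) • p m + t • z) = (y - p m) - t • (z - p m) by
          module] at b
        have b2 := pow_le_pow_left₀ (norm_nonneg _) b 2
        rw [norm_sub_sq_real (y - p m), inner_smul_right, norm_smul, Real.norm_eq_abs,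
          abs_of_pos t0] at b2
        refine le_of_mul_le_mul_left ?_ t0
        nlinarith
      simp only [ν, real_inner_smul_left]
      refine mul_nonneg (inv_nonneg.2 (norm_nonneg _)) ?_
      rw [show y - z = (y - p m) - (z - p m) by abel, inner_sub_right, real_inner_self_eq_norm_sq]
      nlinarith [sq_nonneg ‖y - p m‖]
    have a1 : ∀ N, m₀ ≤ N → ∑ m ∈ Finset.range N, inner ℝ (ν m) (y - z) ≤ inner ℝ u (y - z) := by
      intro N hN
      rw [← sub_nonneg]
      refine le_of_small (b := ∑ m ∈ Finset.range N, ‖y - z‖ ^ 2 / (2 * ‖y - p m‖))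
        fun t t0 t1 => ?_
      have q : ∀ m, infDist (y - t • (y - z)) (K m) ≤ infDist y (K m) +
          t * (t * (‖y - z‖ ^ 2 / (2 * ‖y - p m‖)) - inner ℝ (ν m) (y - z)) := by
        intro m
        refine (infDist_le_dist_of_mem (hp m)).trans ?_
        rw [ep, dist_eq_norm, show y - t • (y - z) - p m = (y - p m) - t • (y - z) by abel]
        have b := norm_sub_sq_real (y - p m) (t • (y - z))
        rw [inner_smul_right, norm_smul, Real.norm_eq_abs, abs_of_pos t0] at b
        simp only [ν, real_inner_smul_left]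
        have := d0 m
        generalize ‖y - p m - t • (y - z)‖ = A at *
        generalize ‖y - p m‖ = d at *
        generalize inner ℝ (y - p m) (y - z) = I at *
        have e : d + t * (t * (‖y - z‖ ^ 2 / (2 * d)) - d⁻¹ * I) = (A ^ 2 + d ^ 2) / (2 * d) := by
          rw [b]
          field_simp
          ring
        rw [e, le_div_iff₀ (by positivity)]
        nlinarith [sq_nonneg (A - d)]
      have q' : ∀ m, m₀ ≤ m → infDist (y - t • (y - z)) (K m) ≤ infDist y (K m) := by
        intro m h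
        have := (vd m).2 (mem_univ y) (mem_univ z) (sub_nonneg.2 t1) t0.le (sub_add_cancel 1 t)
        simp only [smul_eq_mul] at this
        rw [infDist_zero_of_mem (hm m h), show (1 - t) • y + t • z = y - t • (y - z) by module]
          at this
        nlinarith [infDist_nonneg (x := y) (s := K m)]
      have b := hr (y - t • (y - z)) (r + ∑ m ∈ Finset.range N,
          t * (t * (‖y - z‖ ^ 2 / (2 * ‖y - p m‖)) - inner ℝ (ν m) (y - z))) (sp_le.2 fun j => by
        refine (mono N j _).2.trans ?_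
        have c : S (N + j) y ≤ r := sp_le.1 er.le _
        simp only [S] at c ⊢
        rw [Finset.sum_range_add] at c ⊢
        have c1 := Finset.sum_le_sum fun m (_ : m ∈ Finset.range N) => q m
        have c2 := Finset.sum_le_sum fun m (_ : m ∈ Finset.range j) => q' (N + m) (by omega)
        rw [Finset.sum_add_distrib] at c1
        linarith)
      rw [sub_sub_cancel_left, inner_neg_right, inner_smul_right, ← Finset.mul_sum,
        Finset.sum_sub_distrib, ← Finset.mul_sum] at b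
      refine le_of_mul_le_mul_left ?_ t0
      nlinarith
    refine ((summable_nat_add_iff m₀).1 ?_).tendsto_atTop_zero
    refine summable_of_sum_range_le (c := inner ℝ u (y - z) -
      ∑ m ∈ Finset.range m₀, inner ℝ (ν m) (y - z)) (fun j => a0 _ (by omega)) fun N => ?_
    have := a1 (m₀ + N) (by omega)
    rw [Finset.sum_range_add] at this
    simp only [add_comm _ m₀]
    linarith
  let V := Submodule.span ℝ ((fun z => y - z) '' C)
  have limV : ∀ v ∈ V, Tendsto (fun m => inner ℝ (ν m) v) atTop (𝓝 0) := by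
    intro v hv
    induction hv using Submodule.span_induction with
    | mem v hv =>
      obtain ⟨z, hz, rfl⟩ := hv
      exact lim z hz
    | zero => simp
    | add a b _ _ ha hb => simpa only [inner_add_right, add_zero] using ha.add hb
    | smul c a _ ha => simpa only [inner_smul_right, mul_zero] using ha.const_mul c
  have cV : IsCompact (sphere (0 : E n) 1 ∩ V) :=
    (isCompact_sphere 0 1).inter_right V.closed_of_finiteDimensional
  obtain ⟨v, ⟨v1, v2⟩, ψ, hψ, hv⟩ := cV.tendsto_subseq (x := ν) fun m =>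
    ⟨mem_sphere_zero_iff_norm.2 (n1 m),
      V.smul_mem _ (Submodule.subset_span ⟨p m, sK m (hp m), rfl⟩)⟩
  have l1 := (limV v v2).comp hψ.tendsto_atTop
  have l2 : Tendsto (fun j => inner ℝ (ν (ψ j)) v) atTop (𝓝 (inner ℝ v v)) :=
    hv.inner tendsto_const_nhds
  have := tendsto_nhds_unique l1 l2
  rw [real_inner_self_eq_norm_sq, mem_sphere_zero_iff_norm.1 v1] at this
  norm_num at this

theorem char {C : Set (E n)} (hne : C.Nonempty) (hC : Convex ℝ C) :
    List.TFAE [IsFsigma C,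
      ∃ f, IsProperLscConvex f ∧ dom (subdiff f) = C,
      ∃ f, IsProperLscConvex f ∧ ran (subdiff f) = C,
      ∃ A, IsMaxMonotoneOp A ∧ dom A = C,
      ∃ A, IsMaxMonotoneOp A ∧ ran A = C] := by
  tfae_have 1 → 2 := fun h => by
    obtain ⟨f, h1, -, h3⟩ := exists_fun hne hC h
    exact ⟨f, h1, h3⟩
  tfae_have 1 → 3 := fun h => by
    obtain ⟨f, h1, h2, h3⟩ := exists_fun hne hC h
    obtain ⟨g, g1, g2⟩ := exists_conj h1.1 (max_subdiff h1 h2) (h3 ▸ hne)
    exact ⟨g, g1, by rw [g2, ran_inv, h3]⟩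
  tfae_have 1 → 4 := fun h => by
    obtain ⟨f, h1, h2, h3⟩ := exists_fun hne hC h
    exact ⟨_, max_subdiff h1 h2, h3⟩
  tfae_have 1 → 5 := fun h => by
    obtain ⟨f, h1, h2, h3⟩ := exists_fun hne hC h
    exact ⟨_, max_inv (max_subdiff h1 h2), by rw [ran_inv, h3]⟩
  tfae_have 2 → 1 := by
    rintro ⟨f, h1, rfl⟩
    exact (fsigma_of_closed (closed_subdiff h1.2.1)).1
  tfae_have 3 → 1 := by
    rintro ⟨f, h1, rfl⟩
    exact (fsigma_of_closed (closed_subdiff h1.2.1)).2
  tfae_have 4 → 1 := by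
    rintro ⟨A, h1, rfl⟩
    exact (fsigma_of_closed (closed_of_max h1)).1
  tfae_have 5 → 1 := by
    rintro ⟨A, h1, rfl⟩
    exact (fsigma_of_closed (closed_of_max h1)).2
  tfae_finish

end Pool.Agent.P.MP_597c46_an.Char
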