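import Mathlib

/-!
Definitions for the characterisation of the convex sets that are domains or ranges of
subdifferentials and of maximally monotone operators.
-/

namespace Pool.Agent.P.MP_597c46_an.Char

/-- Euclidean `n`-space. -/
abbrev E (n : ℕ) : Type := EuclideanSpace ℝ (Fin n)

/-- `C` is a countable union of closed sets. -/
def IsFsigma {n : ℕ} (C : Set (E n)) : Prop :=
  ∃ F : ℕ → Set (E n), (∀ m, IsClosed (F m)) ∧ ⋃ m, F m = C

/-- `f : ℝ^n → (-∞, +∞]` is proper, lower semicontinuous and convex (convex epigraph). -/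
def IsProperLscConvex {n : ℕ} (f : E n → WithTop ℝ) : Prop :=
  (∃ x, f x ≠ ⊤) ∧ LowerSemicontinuous f ∧ Convex ℝ {p : E n × ℝ | f p.1 ≤ (p.2 : WithTop ℝ)}

/-- The subdifferential of `f` at `x`: all `u` with `f x + ⟨u, y - x⟩ ≤ f y` for every `y`. -/
def subdiff {n : ℕ} (f : E n → WithTop ℝ) (x : E n) : Set (E n) :=
  {u | ∀ y, f x + ((inner ℝ u (y - x) : ℝ) : WithTop ℝ) ≤ f y}

/-- The domain of a set-valued map. -/
def dom {n : ℕ} (A : E n → Set (E n)) : Set (E n) := {x | (A x).Nonempty}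

/-- The range of a set-valued map. -/
def ran {n : ℕ} (A : E n → Set (E n)) : Set (E n) := ⋃ x, A x

/-- The graph of a set-valued map. -/
def graph {n : ℕ} (A : E n → Set (E n)) : Set (E n × E n) := {p | p.2 ∈ A p.1}

/-- `A` is monotone: `⟨u - v, x - y⟩ ≥ 0` whenever `u ∈ A x` and `v ∈ A y`. -/
def IsMonotoneOp {n : ℕ} (A : E n → Set (E n)) : Prop :=
  ∀ x y u v, u ∈ A x → v ∈ A y → 0 ≤ inner ℝ (u - v) (x - y)

/-- `A` is maximally monotone: monotone, and its graph is not properly contained in the graph of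
another monotone map. -/
def IsMaxMonotoneOp {n : ℕ} (A : E n → Set (E n)) : Prop :=
  IsMonotoneOp A ∧ ¬ ∃ B, IsMonotoneOp B ∧ graph A ⊂ graph B

end Pool.Agent.P.MP_597c46_an.Char
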