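import Mathlib

/-!
A bounded convex G-delta subset of Euclidean n-space (n at least 2) which is not sigma-compact,
and the fact that both projections of a closed subset of a product are sigma-compact.
-/

namespace Pool.Agent.P.MP_597c46_an

open Set Metric

/-- The open unit ball together with the points of the unit sphere whose first coordinate is
irrational. -/
def badSet (n : ℕ) (hn : 2 ≤ n) : Set (EuclideanSpace ℝ (Fin n)) :=
  closedBall 0 1 ∩ (ball 0 1 ∪ {x | Irrational (x ⟨0, by omega⟩)})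

theorem ball_subset_badSet (n : ℕ) (hn : 2 ≤ n) : ball 0 1 ⊆ badSet n hn :=
  fun _ hx => ⟨ball_subset_closedBall hx, Or.inl hx⟩

theorem badSet_nonempty (n : ℕ) (hn : 2 ≤ n) : (badSet n hn).Nonempty :=
  ⟨0, ball_subset_badSet n hn (mem_ball_self one_pos)⟩

theorem badSet_bounded (n : ℕ) (hn : 2 ≤ n) : Bornology.IsBounded (badSet n hn) :=
  isBounded_closedBall.subset inter_subset_left

theorem badSet_convex (n : ℕ) (hn : 2 ≤ n) : Convex ℝ (badSet n hn) := by
  rw [convex_iff_pairwise_pos]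
  intro x hx y hy hxy a b ha hb hab
  exact ball_subset_badSet n hn (combo_mem_ball_of_ne hx.1 hy.1 hxy ha hb hab)

theorem continuous_coord (n : ℕ) (i : Fin n) :
    Continuous fun x : EuclideanSpace ℝ (Fin n) => x i := by
  fun_prop

theorem badSet_isGδ (n : ℕ) (hn : 2 ≤ n) : IsGδ (badSet n hn) := by
  refine IsGδ.inter isClosed_closedBall.isGδ (IsGδ.union isOpen_ball.isGδ ?_)
  have h : {x : EuclideanSpace ℝ (Fin n) | Irrational (x ⟨0, by omega⟩)} =
      ⋂ q : ℚ, {x : EuclideanSpace ℝ (Fin n) | x ⟨0, by omega⟩ ≠ (q : ℝ)} := by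
    ext x
    simp only [Irrational, mem_ofPred_eq, mem_range, not_exists, mem_iInter]
    exact forall_congr' fun q => ne_comm
  rw [h]
  refine IsGδ.iInter fun q => IsOpen.isGδ ?_
  exact isOpen_ne_fun (continuous_coord n _) continuous_const

theorem exists_sphere_point (n : ℕ) (hn : 2 ≤ n) (t : ℝ) (ht : t ∈ Ioo (-1 : ℝ) 1) :
    ∃ x : EuclideanSpace ℝ (Fin n), ‖x‖ = 1 ∧ x ⟨0, by omega⟩ = t := by
  have h01 : (⟨0, by omega⟩ : Fin n) ≠ ⟨1, by omega⟩ := by simp
  have ht2 : 0 ≤ 1 - t ^ 2 := by nlinarith [ht.1, ht.2]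
  refine ⟨EuclideanSpace.single ⟨0, by omega⟩ t +
    EuclideanSpace.single ⟨1, by omega⟩ (Real.sqrt (1 - t ^ 2)), ?_, ?_⟩
  · have h2 : ‖EuclideanSpace.single (⟨0, by omega⟩ : Fin n) t +
        EuclideanSpace.single (⟨1, by omega⟩ : Fin n) (Real.sqrt (1 - t ^ 2))‖ ^ 2 = 1 := by
      rw [norm_add_sq_real, EuclideanSpace.inner_single_left]
      simp [Real.sq_sqrt ht2]
    have h3 := norm_nonneg (EuclideanSpace.single (⟨0, by omega⟩ : Fin n) t +
        EuclideanSpace.single (⟨1, by omega⟩ : Fin n) (Real.sqrt (1 - t ^ 2)))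
    nlinarith
  · simp

theorem badSet_not_sigmaCompact (n : ℕ) (hn : 2 ≤ n) : ¬ IsSigmaCompact (badSet n hn) := by
  rintro ⟨K, hK, hU⟩
  let L : ℕ → Set ℝ := fun m =>
    (fun x : EuclideanSpace ℝ (Fin n) => x ⟨0, by omega⟩) '' (K m ∩ sphere 0 1)
  have hLc : ∀ m, IsCompact (L m) := fun m =>
    ((hK m).inter_right isClosed_sphere).image (continuous_coord n _)
  have hLirr : ∀ m, ∀ t ∈ L m, Irrational t := by
    rintro m t ⟨x, ⟨hxK, hxs⟩, rfl⟩
    have hx : x ∈ badSet n hn := hU ▸ mem_iUnion.2 ⟨m, hxK⟩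
    rcases hx.2 with h | h
    · rw [mem_ball_zero_iff] at h
      rw [mem_sphere_zero_iff_norm] at hxs
      exact absurd hxs h.ne
    · exact h
  have hdense : ∀ m, Dense (L m)ᶜ := by
    intro m
    refine Dense.mono ?_ (Rat.denseRange_cast (𝕜 := ℝ))
    rintro _ ⟨q, rfl⟩ hq
    exact (hLirr m _ hq) ⟨q, rfl⟩
  have h1 : Dense (⋂ m, (L m)ᶜ) :=
    dense_iInter_of_isOpen (fun m => (hLc m).isClosed.isOpen_compl) hdense
  have h2 : Dense ((⋂ m, (L m)ᶜ) ∩ {x | Irrational x}) :=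
    Dense.inter_of_Gδ (IsGδ.iInter fun m => (hLc m).isClosed.isOpen_compl.isGδ)
      IsGδ.setOfPred_irrational h1 dense_irrational
  obtain ⟨t, ht, htI⟩ := h2.exists_mem_open (isOpen_Ioo (a := (-1 : ℝ)) (b := 1))
    ⟨0, by constructor <;> norm_num⟩
  obtain ⟨x, hx1, hx0⟩ := exists_sphere_point n hn t htI
  have hxC : x ∈ badSet n hn := by
    refine ⟨by simp [hx1], Or.inr ?_⟩
    have := ht.2
    simpa [hx0] using this
  rw [← hU] at hxC
  obtain ⟨m, hm⟩ := mem_iUnion.1 hxC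
  exact (mem_iInter.1 ht.1 m) ⟨x, ⟨hm, by simp [hx1]⟩, hx0⟩

/-- A set-valued map with closed graph has neither domain nor range equal to the bad set. -/
theorem dom_ran_ne_of_isClosed (n : ℕ) (hn : 2 ≤ n)
    (A : EuclideanSpace ℝ (Fin n) → Set (EuclideanSpace ℝ (Fin n)))
    (hA : IsClosed {p : EuclideanSpace ℝ (Fin n) × EuclideanSpace ℝ (Fin n) | p.2 ∈ A p.1}) :
    {x | (A x).Nonempty} ≠ badSet n hn ∧ (⋃ x, A x) ≠ badSet n hn := by
  have hG : IsSigmaCompact
      {p : EuclideanSpace ℝ (Fin n) × EuclideanSpace ℝ (Fin n) | p.2 ∈ A p.1} :=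
    IsSigmaCompact.of_isClosed_subset isSigmaCompact_univ hA (subset_univ _)
  constructor
  · intro h
    apply badSet_not_sigmaCompact n hn
    rw [← h]
    convert hG.image continuous_fst using 1
    ext x
    simp [Set.Nonempty]
  · intro h
    apply badSet_not_sigmaCompact n hn
    rw [← h]
    convert hG.image continuous_snd using 1
    ext x
    simp

end Pool.Agent.P.MP_597c46_an
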